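import Pool.Agent.T9h45.CP.Spec
import Pool.Agent.TH559.LE.Bip

/-!
# Piece (C) of `T9h45/CP` (helper31): Galvin with preferences
-/

set_option autoImplicit false

namespace Pool.Agent.T9h31.CP

open Finset Classical Pool.T9h45.CP

variable {V : Type} [Fintype V]

lemma cnt_inj (P : V → Prop) (f : V → ℕ) (m k : ℕ) (h : ∀ w, P w → m < f w ∧ f w < k)
    (hi : ∀ u v, P u → P v → u ≠ v → f u ≠ f v) : cn P ≤ k - 1 - m := by
  have h1 : (univ.filter P).card ≤ (Finset.Ioo m k).card := by
    refine Finset.card_le_card_of_injOn f ?_ ?_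
    · intro w hw
      have hw' : P w := by simpa using hw
      simpa using h w hw'
    · intro u hu v hv huv
      by_contra hne
      exact hi u v (by simpa using hu) (by simpa using hv) hne huv
  rw [Nat.card_Ioo] at h1
  have h2 : cn P = (univ.filter P).card := rfl
  omega

lemma cnt_fst (T : Finset (V × V)) (x : V) (P1 P2 : V → Prop)
    (h : ∀ g ∈ T, g.1 = x ∧ (P1 g.2 ∨ P2 g.2)) : T.card ≤ cn P1 + cn P2 := by
  have h1 : T.card ≤ (univ.filter P1 ∪ univ.filter P2).card := by
    refine Finset.card_le_card_of_injOn Prod.snd ?_ ?_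
    · intro g hg
      have := (h g hg).2
      simpa using this
    · intro g hg g' hg' hgg
      exact Prod.ext ((h g hg).1.trans (h g' hg').1.symm) hgg
  exact h1.trans (Finset.card_union_le _ _)

lemma cnt_snd (T : Finset (V × V)) (x : V) (P1 P2 : V → Prop)
    (h : ∀ g ∈ T, g.2 = x ∧ (P1 g.1 ∨ P2 g.1)) : T.card ≤ cn P1 + cn P2 := by
  have h1 : T.card ≤ (univ.filter P1 ∪ univ.filter P2).card := by
    refine Finset.card_le_card_of_injOn Prod.fst ?_ ?_
    · intro g hg
      have := (h g hg).2
      simpa using this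
    · intro g hg g' hg' hgg
      exact Prod.ext hgg ((h g hg).1.trans (h g' hg').1.symm)
  exact h1.trans (Finset.card_union_le _ _)

lemma cnt_fst' (T : Finset (V × V)) (x y : V) (P : V → Prop) (hy : P y)
    (h : ∀ g ∈ T, g.1 = x ∧ P g.2 ∧ g.2 ≠ y) : T.card + 1 ≤ cn P := by
  have h1 : T.card ≤ ((univ.filter P).erase y).card := by
    refine Finset.card_le_card_of_injOn Prod.snd ?_ ?_
    · intro g hg
      have h3 := (h g hg).2
      exact Finset.mem_coe.2 (Finset.mem_erase.2
        ⟨h3.2, Finset.mem_filter.2 ⟨Finset.mem_univ _, h3.1⟩⟩)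
    · intro g hg g' hg' hgg
      exact Prod.ext ((h g hg).1.trans (h g' hg').1.symm) hgg
  have hm : y ∈ univ.filter P := by simpa using hy
  rw [Finset.card_erase_of_mem hm] at h1
  have h2 : cn P = (univ.filter P).card := rfl
  have h3 : 0 < (univ.filter P).card := Finset.card_pos.2 ⟨y, hm⟩
  omega

lemma cnt_snd' (T : Finset (V × V)) (x y : V) (P : V → Prop) (hy : P y)
    (h : ∀ g ∈ T, g.2 = x ∧ P g.1 ∧ g.1 ≠ y) : T.card + 1 ≤ cn P := by
  have h1 : T.card ≤ ((univ.filter P).erase y).card := by
    refine Finset.card_le_card_of_injOn Prod.fst ?_ ?_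
    · intro g hg
      have h3 := (h g hg).2
      exact Finset.mem_coe.2 (Finset.mem_erase.2
        ⟨h3.2, Finset.mem_filter.2 ⟨Finset.mem_univ _, h3.1⟩⟩)
    · intro g hg g' hg' hgg
      exact Prod.ext hgg ((h g hg).1.trans (h g' hg').1.symm)
  have hm : y ∈ univ.filter P := by simpa using hy
  rw [Finset.card_erase_of_mem hm] at h1
  have h2 : cn P = (univ.filter P).card := rfl
  have h3 : 0 < (univ.filter P).card := Finset.card_pos.2 ⟨y, hm⟩
  omega

lemma lex_le {M a b i j : ℕ} (hj : j < M) (h : a * M + i < b * M + j) : a ≤ b := by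
  by_contra hab
  push Not at hab
  have h1 : (b + 1) * M ≤ a * M := Nat.mul_le_mul_right M hab
  have h2 : (b + 1) * M = b * M + M := by ring
  omega

lemma lex_eq {M a b i j : ℕ} (hi : i < M) (hj : j < M) (h : a * M + i = b * M + j) : i = j := by
  have h1 : a ≤ b := by
    by_contra hab
    push Not at hab
    have h1 : (b + 1) * M ≤ a * M := Nat.mul_le_mul_right M hab
    have h2 : (b + 1) * M = b * M + M := by ring
    omega
  have h2 : b ≤ a := by
    by_contra hab
    push Not at hab
    have h1 : (a + 1) * M ≤ b * M := Nat.mul_le_mul_right M hab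
    have h2 : (a + 1) * M = a * M + M := by ring
    omega
  have h3 : a = b := le_antisymm h1 h2
  subst h3
  omega

theorem gal : SGal := by
  intro V _ G cl S D f hA hB hinj hin hout
  set M := Fintype.card V with hM
  let idx : V → ℕ := fun v => (Fintype.equivFin V v : ℕ)
  have hidx : ∀ u v, idx u = idx v → u = v := fun u v h =>
    (Fintype.equivFin V).injective (Fin.ext h)
  have hidxM : ∀ v, idx v < M := fun v => (Fintype.equivFin V v).isLt
  obtain ⟨Bd, hBd⟩ : ∃ Bd : ℕ, ∀ v, f v ≤ Bd :=
    ⟨univ.sup f, fun v => Finset.le_sup (f := f) (mem_univ v)⟩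
  let kp : V × V → ℕ := fun e => if cl e.1 = cl e.2 then f e.2 else Bd + 1
  let kq : V × V → ℕ := fun e => if cl e.1 = cl e.2 then Bd - f e.1 + 1 else 0
  let p : V × V → ℕ := fun e => kp e * M + idx e.2
  let q : V × V → ℕ := fun e => kq e * M + idx e.1
  have hop : ∀ e g : V × V, e.1 = g.1 → p e = p g → e = g := fun e g h h' =>
    Prod.ext h (hidx _ _ (lex_eq (hidxM _) (hidxM _) h'))
  have hip : ∀ e g : V × V, e.2 = g.2 → q e = q g → e = g := fun e g h h' =>
    Prod.ext (hidx _ _ (lex_eq (hidxM _) (hidxM _) h')) h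
  let F : Finset (V × V) := univ.filter fun e => S e.1 ∧ ¬ S e.2 ∧ G.Adj e.1 e.2
  have hF : ∀ e, e ∈ F ↔ S e.1 ∧ ¬ S e.2 ∧ G.Adj e.1 e.2 := fun e => by simp [F]
  let L : V × V → Finset ℕ := fun e => Finset.Ico (f e.1) (D - f e.2)
  have hL : ∀ e ∈ F, (F.filter (fun g => g.1 = e.1 ∧ p e < p g)).card +
        (F.filter (fun g => g.2 = e.2 ∧ q g < q e)).card < (L e).card := by
    intro e he
    obtain ⟨hx, hy, hxy⟩ := (hF e).1 he
    set x := e.1 with hxe
    set y := e.2 with hye
    have hfx := hA x hx
    have hfy := hB y hy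
    have hLc : (L e).card = D - f y - f x := Nat.card_Ico _ _
    by_cases hcl : cl x = cl y
    · -- inside a class
      have hkp : kp e = f y := if_pos hcl
      have hkq : kq e = Bd - f x + 1 := if_pos hcl
      have hcB : cB S cl y = cB S cl x := by
        unfold cB
        rw [hcl]
      have h1 : (F.filter (fun g => g.1 = x ∧ p e < p g)).card ≤
          cO G S cl x + (cB S cl x - 1 - f y) := by
        refine (cnt_fst _ x (fun w => G.Adj x w ∧ cl w ≠ cl x ∧ ¬ (S w ↔ S x))
          (fun w => ¬ S w ∧ cl w = cl x ∧ f y < f w) ?_).trans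
          (Nat.add_le_add_left (cnt_inj _ f _ _ ?_ ?_) _)
        · intro g hg
          rw [Finset.mem_filter] at hg
          obtain ⟨hgF, hg1, hg2⟩ := hg
          obtain ⟨g1, g2, g3⟩ := (hF g).1 hgF
          refine ⟨hg1, ?_⟩
          by_cases hc : cl g.1 = cl g.2
          · right
            have hk : kp g = f g.2 := if_pos hc
            have h3 : kp e ≤ kp g := lex_le (hidxM _) hg2
            rw [hkp, hk] at h3
            have hcx : cl g.2 = cl x := by rw [← hc, hg1]
            have hne : y ≠ g.2 := by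
              intro h
              have : e = g := Prod.ext (by rw [← hxe, ← hg1]) (by rw [← hye, h])
              rw [this] at hg2
              exact lt_irrefl _ hg2
            have h4 : f y ≠ f g.2 := hinj y g.2 (by simp [hy, g2]) hne (by rw [hcx, hcl])
            exact ⟨g2, hcx, lt_of_le_of_ne h3 h4⟩
          · left
            rw [hg1] at g3 hc
            exact ⟨g3, fun h => hc h.symm, fun h => g2 (h.2 hx)⟩
        · rintro w ⟨hw1, hw2, hw3⟩
          refine ⟨hw3, ?_⟩
          have := hB w hw1
          have h5 : cB S cl w = cB S cl x := by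
            unfold cB
            rw [hw2]
          omega
        · rintro u v ⟨hu1, hu2, hu3⟩ ⟨hv1, hv2, hv3⟩ huv
          exact hinj u v (by simp [hu1, hv1]) huv (hu2.trans hv2.symm)
      have h2 : (F.filter (fun g => g.2 = y ∧ q g < q e)).card ≤
          cO G S cl y + (cA S cl x - 1 - f x) := by
        refine (cnt_snd _ y (fun w => G.Adj y w ∧ cl w ≠ cl y ∧ ¬ (S w ↔ S y))
          (fun w => S w ∧ cl w = cl x ∧ f x < f w) ?_).trans
          (Nat.add_le_add_left (cnt_inj _ f _ _ ?_ ?_) _)
        · intro g hg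
          rw [Finset.mem_filter] at hg
          obtain ⟨hgF, hg1, hg2⟩ := hg
          obtain ⟨g1, g2, g3⟩ := (hF g).1 hgF
          refine ⟨hg1, ?_⟩
          by_cases hc : cl g.1 = cl g.2
          · right
            have hk : kq g = Bd - f g.1 + 1 := if_pos hc
            have h3 : kq g ≤ kq e := lex_le (hidxM _) hg2
            rw [hkq, hk] at h3
            have hcx : cl g.1 = cl x := by rw [hc, hg1, hcl]
            have hne : x ≠ g.1 := by
              intro h
              have : e = g := Prod.ext (by rw [← hxe, h]) (by rw [← hye, hg1])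
              rw [this] at hg2
              exact lt_irrefl _ hg2
            have h4 : f x ≠ f g.1 := hinj x g.1 (by simp [hx, g1]) hne hcx.symm
            have h5 := hBd g.1
            have h6 := hBd x
            refine ⟨g1, hcx, lt_of_le_of_ne ?_ h4⟩
            omega
          · left
            rw [hg1] at g3 hc
            exact ⟨g3.symm, hc, fun h => hy (h.1 g1)⟩
        · rintro w ⟨hw1, hw2, hw3⟩
          refine ⟨hw3, ?_⟩
          have := hA w hw1
          have h5 : cA S cl w = cA S cl x := by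
            unfold cA
            rw [hw2]
          omega
        · rintro u v ⟨hu1, hu2, hu3⟩ ⟨hv1, hv2, hv3⟩ huv
          exact hinj u v (by simp [hu1, hv1]) huv (hu2.trans hv2.symm)
      have h3 := hin x y hx hy hcl
      rw [hcB] at hfy
      rw [hLc]
      omega
    · -- between classes
      have hkp : kp e = Bd + 1 := if_neg hcl
      have hkq : kq e = 0 := if_neg hcl
      have h1 : (F.filter (fun g => g.1 = x ∧ p e < p g)).card + 1 ≤ cO G S cl x := by
        refine cnt_fst' _ x y _ ⟨hxy, fun h => hcl h.symm, fun h => hy (h.2 hx)⟩ ?_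
        intro g hg
        rw [Finset.mem_filter] at hg
        obtain ⟨hgF, hg1, hg2⟩ := hg
        obtain ⟨g1, g2, g3⟩ := (hF g).1 hgF
        have h3 : kp e ≤ kp g := lex_le (hidxM _) hg2
        have hc : cl g.1 ≠ cl g.2 := by
          intro hc
          have hk : kp g = f g.2 := if_pos hc
          rw [hkp, hk] at h3
          have := hBd g.2
          omega
        refine ⟨hg1, ?_, ?_⟩
        · rw [hg1] at g3 hc
          exact ⟨g3, fun h => hc h.symm, fun h => g2 (h.2 hx)⟩
        · intro h
          have : e = g := Prod.ext (by rw [← hxe, ← hg1]) (by rw [← hye, h])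
          rw [this] at hg2
          exact lt_irrefl _ hg2
      have h2 : (F.filter (fun g => g.2 = y ∧ q g < q e)).card + 1 ≤ cO G S cl y := by
        refine cnt_snd' _ y x _ ⟨hxy.symm, hcl, fun h => hy (h.1 hx)⟩ ?_
        intro g hg
        rw [Finset.mem_filter] at hg
        obtain ⟨hgF, hg1, hg2⟩ := hg
        obtain ⟨g1, g2, g3⟩ := (hF g).1 hgF
        have h3 : kq g ≤ kq e := lex_le (hidxM _) hg2
        have hc : cl g.1 ≠ cl g.2 := by
          intro hc
          have hk : kq g = Bd - f g.1 + 1 := if_pos hc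
          rw [hkq, hk] at h3
          omega
        refine ⟨hg1, ?_, ?_⟩
        · rw [hg1] at g3 hc
          exact ⟨g3.symm, hc, fun h => hy (h.1 g1)⟩
        · intro h
          have : e = g := Prod.ext (by rw [← hxe, h]) (by rw [← hye, hg1])
          rw [this] at hg2
          exact lt_irrefl _ hg2
      have h3 := hout x y hx hy hcl hxy
      rw [hLc]
      omega
  obtain ⟨φ, hφ⟩ := Pool.Agent.TH559.LE.galvin (fun e : V × V => e.1) (fun e : V × V => e.2) p q
    hop hip F.card F L rfl (by
      intro e he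
      convert hL e he using 3)
  refine ⟨fun x y => φ (x, y), ?_, ?_, ?_⟩
  · intro x y hxy hx hy
    have h := (hφ (x, y) ((hF _).2 ⟨hx, hy, hxy⟩)).1
    have h' : f x ≤ φ (x, y) ∧ φ (x, y) < D - f y := Finset.mem_Ico.1 h
    refine ⟨h'.1, ?_⟩
    have := h'.2
    show φ (x, y) + f y < D
    omega
  · intro x y z hxy hxz hx hy hz hne h
    have h1 := (hφ (x, y) ((hF _).2 ⟨hx, hy, hxy⟩)).2 (x, z) ((hF _).2 ⟨hx, hz, hxz⟩)
      (fun h => hne (Prod.ext_iff.1 h).2.symm) h.symm
    exact h1.1 rfl
  · intro x y z hzx hzy hz hx hy hne h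
    have h1 := (hφ (x, z) ((hF _).2 ⟨hx, hz, hzx.symm⟩)).2 (y, z) ((hF _).2 ⟨hy, hz, hzy.symm⟩)
      (fun h => hne (Prod.ext_iff.1 h).1.symm) h.symm
    exact h1.2 rfl

end Pool.Agent.T9h31.CP
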